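import Pool.Agent.Helper62_GB.Stmt2

/-!
GB, modules KSC and KC1 (Klee): most convex bodies are strictly convex and have a boundary of
class `C¹`.
-/

set_option autoImplicit false

namespace Pool.Agent.GB.H51

open MeasureTheory Complex Filter Topology Metric Pool.Agent.H16Iso Pool.Agent.H62T
open Pool.Agent.H16F Pool.Agent.GB

/-! ### The product -/

theorem ip_cont : Continuous fun p : ℂ × ℂ => ip p.1 p.2 := by
  unfold ip
  fun_prop

theorem ip_add (u x y : ℂ) : ip u (x + y) = ip u x + ip u y := by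
  simp [ip]; ring

theorem ip_sub (u x y : ℂ) : ip u (x - y) = ip u x - ip u y := by
  simp [ip]; ring

theorem ip_rmul (u x : ℂ) (t : ℝ) : ip u ((t : ℂ) * x) = t * ip u x := by
  simp [ip]; ring

theorem ip_smul' (u x : ℂ) (t : ℝ) : ip u (t • x) = t * ip u x := by
  simp [ip]; ring

theorem ip_self (u : ℂ) : ip u u = ‖u‖ ^ 2 := by
  rw [← Complex.normSq_eq_norm_sq, Complex.normSq_apply, ip]

theorem le_sq {a b : ℝ} (h : a ^ 2 ≤ b ^ 2) (hb : 0 ≤ b) : a ≤ b := by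
  by_contra hcon
  push Not at hcon
  nlinarith only [h, hb, hcon]

theorem ip_le (u x : ℂ) : ip u x ≤ ‖u‖ * ‖x‖ := by
  refine le_sq ?_ (by positivity)
  rw [mul_pow, ← Complex.normSq_eq_norm_sq, ← Complex.normSq_eq_norm_sq, Complex.normSq_apply,
    Complex.normSq_apply, ip]
  linarith only [sq_nonneg (u.re * x.im - u.im * x.re)]

theorem norm_sub_sq (x y : ℂ) : ‖x - y‖ ^ 2 = ‖x‖ ^ 2 - 2 * ip y x + ‖y‖ ^ 2 := by
  rw [← Complex.normSq_eq_norm_sq, ← Complex.normSq_eq_norm_sq, ← Complex.normSq_eq_norm_sq,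
    Complex.normSq_apply, Complex.normSq_apply, Complex.normSq_apply, ip]
  simp
  ring

/-! ### Closedness -/

/-- the bodies with touching data in a closed set form a closed set -/
theorem closed_touch (C : Set (ℂ × ℂ × ℂ × ℂ)) (hC : IsClosed C) :
    IsClosed {K : CB | ∃ p ∈ C, ‖p.1‖ = 1 ∧ ‖p.2.1‖ = 1 ∧ p.2.2.1 ∈ (K.1 : Set ℂ) ∧
      p.2.2.2 ∈ (K.1 : Set ℂ) ∧ (∀ z ∈ (K.1 : Set ℂ), ip p.1 z ≤ ip p.1 p.2.2.1) ∧
      ∀ z ∈ (K.1 : Set ℂ), ip p.2.1 z ≤ ip p.2.1 p.2.2.2} := by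
  refine IsSeqClosed.isClosed ?_
  intro K K0 hK hlim
  choose p hpC hp1 hp2 hp3 hp4 hp5 hp6 using hK
  have hd : Tendsto (fun n => hausdorffDist ((K n).1 : Set ℂ) (K0.1 : Set ℂ)) atTop (𝓝 0) :=
    tendsto_iff_dist_tendsto_zero.1 hlim
  have hfin : ∀ n, hausdorffEDist ((K n).1 : Set ℂ) (K0.1 : Set ℂ) ≠ ⊤ := fun n =>
    hausdorffEDist_ne_top_of_nonempty_of_bounded (K n).1.nonempty K0.1.nonempty
      (K n).1.isCompact.isBounded K0.1.isCompact.isBounded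
  obtain ⟨N, hN⟩ := eventually_atTop.1 (hd.eventually (gt_mem_nhds zero_lt_one))
  have hcpt : IsCompact (closedBall (0 : ℂ) 1 ×ˢ closedBall (0 : ℂ) 1 ×ˢ
      cthickening 1 (K0.1 : Set ℂ) ×ˢ cthickening 1 (K0.1 : Set ℂ)) :=
    (isCompact_closedBall _ _).prod ((isCompact_closedBall _ _).prod
      ((K0.1.isCompact.cthickening).prod K0.1.isCompact.cthickening))
  have hmem : ∀ n, p (N + n) ∈ (closedBall (0 : ℂ) 1 ×ˢ closedBall (0 : ℂ) 1 ×ˢ
      cthickening 1 (K0.1 : Set ℂ) ×ˢ cthickening 1 (K0.1 : Set ℂ)) := by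
    intro n
    have h1 : ∀ x ∈ ((K (N + n)).1 : Set ℂ), x ∈ cthickening 1 (K0.1 : Set ℂ) := by
      intro x hx
      obtain ⟨y, hy1, hy2⟩ := exists_dist_lt_of_hausdorffDist_lt hx (hN (N + n) (by omega))
        (hfin _)
      exact mem_cthickening_of_dist_le x y 1 _ hy1 hy2.le
    refine ⟨?_, ?_, h1 _ (hp3 _), h1 _ (hp4 _)⟩
    · rw [mem_closedBall, dist_zero_right, hp1]
    · rw [mem_closedBall, dist_zero_right, hp2]
  obtain ⟨q, -, φ, hφ, hq⟩ := hcpt.tendsto_subseq hmem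
  have hq' : Tendsto (fun n => p (N + φ n)) atTop (𝓝 q) := hq
  have tN : Tendsto (fun n => N + φ n) atTop atTop :=
    tendsto_atTop_mono (fun n => Nat.le_add_left _ _) hφ.tendsto_atTop
  have hd' : Tendsto (fun n => hausdorffDist ((K (N + φ n)).1 : Set ℂ) (K0.1 : Set ℂ)) atTop
      (𝓝 0) := hd.comp tN
  -- limits of points of the bodies are in the body
  have hin : ∀ (x : ℕ → ℂ) (x0 : ℂ), (∀ n, x n ∈ ((K (N + φ n)).1 : Set ℂ)) →
      Tendsto x atTop (𝓝 x0) → x0 ∈ (K0.1 : Set ℂ) := by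
    intro x x0 hx hx0
    rw [K0.1.isCompact.isClosed.mem_iff_infDist_zero K0.1.nonempty]
    have h1 : Tendsto (fun n => infDist (x n) (K0.1 : Set ℂ)) atTop
        (𝓝 (infDist x0 (K0.1 : Set ℂ))) := ((continuous_infDist_pt _).tendsto x0).comp hx0
    have h2 : Tendsto (fun n => infDist (x n) (K0.1 : Set ℂ)) atTop (𝓝 0) :=
      squeeze_zero (fun n => infDist_nonneg)
        (fun n => infDist_le_hausdorffDist_of_mem (hx n) (hfin _)) hd'
    exact tendsto_nhds_unique h1 h2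
  -- maximality passes to the limit
  have hmax : ∀ (u x : ℕ → ℂ) (u0 x0 : ℂ), (∀ n, ‖u n‖ = 1) →
      (∀ n, ∀ z ∈ ((K (N + φ n)).1 : Set ℂ), ip (u n) z ≤ ip (u n) (x n)) →
      Tendsto u atTop (𝓝 u0) → Tendsto x atTop (𝓝 x0) →
      ∀ z ∈ (K0.1 : Set ℂ), ip u0 z ≤ ip u0 x0 := by
    intro u x u0 x0 hu hux tu tx z hz
    have h1 : Tendsto (fun n => ip (u n) z) atTop (𝓝 (ip u0 z)) :=
      (ip_cont.tendsto (u0, z)).comp (tu.prodMk_nhds tendsto_const_nhds)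
    have h2 : Tendsto (fun n => ip (u n) (x n)
        + hausdorffDist ((K (N + φ n)).1 : Set ℂ) (K0.1 : Set ℂ)) atTop (𝓝 (ip u0 x0 + 0)) :=
      ((ip_cont.tendsto (u0, x0)).comp (tu.prodMk_nhds tx)).add hd'
    rw [add_zero] at h2
    refine le_of_tendsto_of_tendsto' h1 h2 fun n => ?_
    refine le_of_forall_pos_le_add fun ε hε => ?_
    obtain ⟨y, hy1, hy2⟩ := exists_dist_lt_of_hausdorffDist_lt' hz
      (show hausdorffDist ((K (N + φ n)).1 : Set ℂ) (K0.1 : Set ℂ)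
        < hausdorffDist ((K (N + φ n)).1 : Set ℂ) (K0.1 : Set ℂ) + ε by linarith) (hfin _)
    have h3 := hux n y hy1
    have h4 : ip (u n) (z - y) ≤ dist z y := by
      have := ip_le (u n) (z - y)
      rwa [hu n, one_mul, ← dist_eq_norm] at this
    rw [ip_sub] at h4
    rw [dist_comm] at hy2
    linarith
  have t1 : Tendsto (fun n => (p (N + φ n)).1) atTop (𝓝 q.1) := (continuous_fst.tendsto q).comp hq'
  have t2 : Tendsto (fun n => (p (N + φ n)).2.1) atTop (𝓝 q.2.1) :=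
    ((continuous_fst.comp continuous_snd).tendsto q).comp hq'
  have t3 : Tendsto (fun n => (p (N + φ n)).2.2.1) atTop (𝓝 q.2.2.1) :=
    ((continuous_fst.comp (continuous_snd.comp continuous_snd)).tendsto q).comp hq'
  have t4 : Tendsto (fun n => (p (N + φ n)).2.2.2) atTop (𝓝 q.2.2.2) :=
    ((continuous_snd.comp (continuous_snd.comp continuous_snd)).tendsto q).comp hq'
  refine ⟨q, hC.mem_of_tendsto hq' (Eventually.of_forall fun n => hpC _), ?_, ?_,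
    hin _ _ (fun n => hp3 _) t3, hin _ _ (fun n => hp4 _) t4,
    hmax _ _ _ _ (fun n => hp1 _) (fun n => hp5 _) t1 t3,
    hmax _ _ _ _ (fun n => hp2 _) (fun n => hp6 _) t2 t4⟩
  · have h1 : Tendsto (fun n => ‖(p (N + φ n)).1‖) atTop (𝓝 ‖q.1‖) := t1.norm
    simp only [hp1] at h1
    exact (tendsto_nhds_unique h1 tendsto_const_nhds)
  · have h1 : Tendsto (fun n => ‖(p (N + φ n)).2.1‖) atTop (𝓝 ‖q.2.1‖) := t2.norm
    simp only [hp2] at h1
    exact (tendsto_nhds_unique h1 tendsto_const_nhds)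

/-! ### Strict convexity -/

/-- supporting lines -/
theorem exists_support (K : CB) {p : ℂ} (hp : p ∉ interior (K.1 : Set ℂ)) :
    ∃ u : ℂ, ‖u‖ = 1 ∧ ∀ z ∈ (K.1 : Set ℂ), ip u z ≤ ip u p := by
  obtain ⟨f, hf⟩ := geometric_hahn_banach_open_point K.1.convex.interior isOpen_interior hp
  have hfe : ∀ z : ℂ, f z = ip (f 1 + f I * I) z := by
    intro z
    have h1 : z = (z.re : ℝ) • (1 : ℂ) + (z.im : ℝ) • I := by
      apply Complex.ext <;> simp
    conv_lhs => rw [h1, map_add, map_smul, map_smul]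
    simp [ip]
    ring
  obtain ⟨w, hw⟩ : ∃ w : ℂ, w = f 1 + f I * I := ⟨_, rfl⟩
  rw [← hw] at hfe
  obtain ⟨z0, hz0⟩ := K.2
  have hw0 : w ≠ 0 := by
    rintro rfl
    have := hf z0 hz0
    rw [hfe, hfe] at this
    simp [ip] at this
  have hn : 0 < ‖w‖ := norm_pos_iff.2 hw0
  refine ⟨((‖w‖⁻¹ : ℝ) : ℂ) * w, ?_, fun z hz => ?_⟩
  · rw [norm_mul, Complex.norm_real, norm_inv, norm_norm, inv_mul_cancel₀ hn.ne']
  · have hcl : z ∈ closure (interior (K.1 : Set ℂ)) := by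
      rw [K.1.convex.closure_interior_eq_closure_of_nonempty_interior K.2,
        K.1.isCompact.isClosed.closure_eq]
      exact hz
    have h2 : f z ≤ f p := by
      have h3 : closure (interior (K.1 : Set ℂ)) ⊆ {z | f z ≤ f p} :=
        closure_minimal (fun a ha => (hf a ha).le) (isClosed_le f.continuous continuous_const)
      exact h3 hcl
    rw [hfe, hfe] at h2
    have h4 : ∀ z, ip (((‖w‖⁻¹ : ℝ) : ℂ) * w) z = ‖w‖⁻¹ * ip w z := by
      intro z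
      simp only [ip, Complex.re_ofReal_mul, Complex.im_ofReal_mul]
      ring
    rw [h4, h4]
    exact mul_le_mul_of_nonneg_left h2 (by positivity)

/-- touching data which contradict strict convexity -/
def Csc (n : ℕ) : Set (ℂ × ℂ × ℂ × ℂ) := {p | p.1 = p.2.1 ∧ 1 / ((n : ℝ) + 1) ≤ ‖p.2.2.1 - p.2.2.2‖}

theorem Csc_closed (n : ℕ) : IsClosed (Csc n) := by
  have h1 : IsClosed {p : ℂ × ℂ × ℂ × ℂ | p.1 = p.2.1} := isClosed_eq (by fun_prop) (by fun_prop)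
  have h2 : IsClosed {p : ℂ × ℂ × ℂ × ℂ | 1 / ((n : ℝ) + 1) ≤ ‖p.2.2.1 - p.2.2.2‖} :=
    isClosed_le (by fun_prop) (by fun_prop)
  exact h1.inter h2

theorem sc_iff (K : CB) : StrictConvex ℝ (K.1 : Set ℂ) ↔ ∀ n : ℕ, K ∉ {K : CB | ∃ p ∈ Csc n,
    ‖p.1‖ = 1 ∧ ‖p.2.1‖ = 1 ∧ p.2.2.1 ∈ (K.1 : Set ℂ) ∧
      p.2.2.2 ∈ (K.1 : Set ℂ) ∧ (∀ z ∈ (K.1 : Set ℂ), ip p.1 z ≤ ip p.1 p.2.2.1) ∧
      ∀ z ∈ (K.1 : Set ℂ), ip p.2.1 z ≤ ip p.2.1 p.2.2.2} := by
  constructor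
  · rintro hK n ⟨⟨u, v, x, y⟩, ⟨huv, hxy⟩, h1, h2, hx, hy, hux, hvy⟩
    simp only at huv hxy h1 h2 hx hy hux hvy
    subst huv
    have hne : x ≠ y := by
      rintro rfl
      rw [sub_self, norm_zero] at hxy
      have : 0 < 1 / ((n : ℝ) + 1) := by positivity
      linarith
    have hm := hK hx hy hne (a := 1 / 2) (b := 1 / 2) (by norm_num) (by norm_num) (by norm_num)
    obtain ⟨ε, hε, hb⟩ := Metric.isOpen_iff.1 isOpen_interior _ hm
    have h3 : ((1 / 2 : ℝ) • x + (1 / 2 : ℝ) • y) + ((ε / 2 : ℝ) : ℂ) * u ∈ (K.1 : Set ℂ) := by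
      refine interior_subset (hb ?_)
      rw [mem_ball, dist_eq_norm, add_sub_cancel_left, norm_mul, h1, mul_one, Complex.norm_real,
        Real.norm_of_nonneg (by positivity)]
      linarith
    have h4 := hux _ h3
    have h5 : ip u x = ip u y := le_antisymm (hvy x hx) (hux y hy)
    rw [ip_add, ip_add, ip_smul', ip_smul', ip_rmul, ip_self, h1, ← h5] at h4
    linarith
  · intro h
    by_contra hK
    have h0 : ∃ x ∈ (K.1 : Set ℂ), ∃ y ∈ (K.1 : Set ℂ), x ≠ y ∧ ∃ a b : ℝ, 0 < a ∧ 0 < b ∧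
        a + b = 1 ∧ a • x + b • y ∉ interior (K.1 : Set ℂ) := by
      by_contra hcon
      push Not at hcon
      exact hK fun x hx y hy hne a b ha hb hab => hcon x hx y hy hne a b ha hb hab
    obtain ⟨x, hx, y, hy, hne, a, b, ha, hb, hab, hp⟩ := h0
    obtain ⟨u, hu, hmax⟩ := exists_support K hp
    have h1 := hmax x hx
    have h2 := hmax y hy
    rw [ip_add, ip_smul', ip_smul'] at h1 h2
    have h3 : ip u x = ip u y := by
      have hb' : b = 1 - a := by linarith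
      subst hb'
      refine le_antisymm ?_ ?_
      · nlinarith
      · nlinarith
    have h4 : ∀ z ∈ (K.1 : Set ℂ), ip u z ≤ ip u x := by
      intro z hz
      have := hmax z hz
      rw [ip_add, ip_smul', ip_smul', ← h3, ← add_mul, hab, one_mul] at this
      exact this
    obtain ⟨n, hn⟩ := exists_nat_one_div_lt (norm_pos_iff.2 (sub_ne_zero.2 hne))
    exact h n ⟨(u, u, x, y), ⟨rfl, hn.le⟩, hu, hu, hx, hy, h4, fun z hz => by
      rw [← h3]; exact h4 z hz⟩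

/-- the intersection of all the closed discs of radius `r` which contain `K` -/
def hl (K : Set ℂ) (r : ℝ) : Set ℂ := {x | ∀ c, K ⊆ closedBall c r → x ∈ closedBall c r}

theorem norm_comb (x y c : ℂ) {a b : ℝ} (hab : a + b = 1) :
    ‖a • x + b • y - c‖ ^ 2 = a * ‖x - c‖ ^ 2 + b * ‖y - c‖ ^ 2 - a * b * ‖x - y‖ ^ 2 := by
  obtain rfl : b = 1 - a := by linarith
  simp only [← Complex.normSq_eq_norm_sq, Complex.normSq_apply]
  simp
  ring

theorem hl_strict {K : Set ℂ} {r : ℝ} (hr : 0 < r) (hK : ∃ c, K ⊆ closedBall c r) :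
    StrictConvex ℝ (hl K r) := by
  intro x hx y hy hne a b ha hb hab
  obtain ⟨c0, hc0⟩ := hK
  have hxy : 0 < ‖x - y‖ := norm_pos_iff.2 (sub_ne_zero.2 hne)
  have hxy2 : ‖x - y‖ ≤ 2 * r := by
    have h1 := hx c0 hc0
    have h2 := hy c0 hc0
    rw [mem_closedBall] at h1 h2
    rw [← dist_eq_norm]
    calc dist x y ≤ dist x c0 + dist y c0 := dist_triangle_right _ _ _
      _ ≤ 2 * r := by linarith
  have hab4 : a * b ≤ 1 / 4 := by nlinarith [sq_nonneg (a - b)]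
  obtain ⟨δ, hδ⟩ : ∃ δ : ℝ, δ = a * b * ‖x - y‖ ^ 2 / (2 * r) := ⟨_, rfl⟩
  have hδ0 : 0 < δ := by rw [hδ]; positivity
  have hδr : δ ≤ r := by
    rw [hδ, div_le_iff₀ (by positivity)]
    have h1 : ‖x - y‖ ^ 2 ≤ (2 * r) ^ 2 := by gcongr
    have h2 : a * b * ‖x - y‖ ^ 2 ≤ 1 / 4 * (2 * r) ^ 2 := by gcongr
    nlinarith only [h2]
  have hδ2 : a * b * ‖x - y‖ ^ 2 = 2 * r * δ := by rw [hδ]; field_simp
  rw [mem_interior]
  refine ⟨ball (a • x + b • y) δ, fun z hz c hc => ?_, isOpen_ball, mem_ball_self hδ0⟩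
  have h1 := hx c hc
  have h2 := hy c hc
  rw [mem_closedBall, dist_eq_norm] at h1 h2
  have h3 : ‖a • x + b • y - c‖ ≤ r - δ := by
    refine le_sq ?_ (by linarith)
    rw [norm_comb x y c hab, hδ2]
    have h4 : ‖x - c‖ ^ 2 ≤ r ^ 2 := by gcongr
    have h5 : ‖y - c‖ ^ 2 ≤ r ^ 2 := by gcongr
    obtain rfl : b = 1 - a := by linarith only [hab]
    nlinarith only [ha, h4, h5, hb, sq_nonneg δ]
  rw [mem_ball, dist_eq_norm] at hz
  rw [mem_closedBall, dist_eq_norm]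
  calc ‖z - c‖ = ‖(z - (a • x + b • y)) + (a • x + b • y - c)‖ := by congr 1; ring
    _ ≤ ‖z - (a • x + b • y)‖ + ‖a • x + b • y - c‖ := norm_add_le _ _
    _ ≤ r := by linarith

theorem hl_convex (K : Set ℂ) (r : ℝ) : Convex ℝ (hl K r) := by
  intro x hx y hy a b ha hb hab c hc
  exact (convex_closedBall c r) (hx c hc) (hy c hc) ha hb hab

theorem hl_closed (K : Set ℂ) (r : ℝ) : IsClosed (hl K r) := by
  have : hl K r = ⋂ c, ⋂ (_ : K ⊆ closedBall c r), closedBall c r := by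
    ext x
    simp [hl]
  rw [this]
  exact isClosed_iInter fun c => isClosed_iInter fun _ => isClosed_closedBall

theorem sub_hl (K : Set ℂ) (r : ℝ) : K ⊆ hl K r := fun _ hx _ hc => hc hx

/-- the hull is close to the body -/
theorem hl_near (K : ConvexBody ℂ) {ε D : ℝ} (hε : 0 < ε) (hD : ∀ x ∈ K, ∀ y ∈ K, ‖x - y‖ ≤ D)
    {r : ℝ} (hr : D ^ 2 + ε ^ 2 ≤ r * ε) {p : ℂ} (hp : p ∈ hl (K : Set ℂ) r) :
    ∃ q ∈ (K : Set ℂ), dist p q ≤ ε := by
  obtain ⟨q, hq, hqp⟩ := exists_norm_eq_iInf_of_complete_convex K.nonempty K.isCompact.isComplete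
    K.convex p
  have hproj := (norm_eq_iInf_iff_real_inner_le_zero K.convex hq).1 hqp
  refine ⟨q, hq, ?_⟩
  rw [dist_eq_norm]
  by_contra hcon
  push Not at hcon
  have hpq : 0 < ‖p - q‖ := lt_trans hε hcon
  obtain ⟨u, hu⟩ : ∃ u : ℂ, u = ((‖p - q‖⁻¹ : ℝ) : ℂ) * (p - q) := ⟨_, rfl⟩
  have hu1 : ‖u‖ = 1 := by
    rw [hu, norm_mul, Complex.norm_real, norm_inv, norm_norm, inv_mul_cancel₀ hpq.ne']
  have hpu : p - q = ((‖p - q‖ : ℝ) : ℂ) * u := by
    rw [hu, ← mul_assoc, ← Complex.ofReal_mul, mul_inv_cancel₀ hpq.ne', Complex.ofReal_one, one_mul]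
  have hKu : ∀ z ∈ (K : Set ℂ), ip u (z - q) ≤ 0 := by
    intro z hz
    have h1 := hproj z hz
    have h2 : inner ℝ (p - q) (z - q) = ip (p - q) (z - q) := by
      rw [Complex.inner]
      simp only [ip, Complex.mul_re, Complex.conj_re, Complex.conj_im]
      ring
    rw [h2] at h1
    rw [hu]
    have h3 : ip (((‖p - q‖⁻¹ : ℝ) : ℂ) * (p - q)) (z - q) = ‖p - q‖⁻¹ * ip (p - q) (z - q) := by
      simp only [ip, Complex.re_ofReal_mul, Complex.im_ofReal_mul]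
      ring
    rw [h3]
    exact mul_nonpos_of_nonneg_of_nonpos (by positivity) h1
  have hD0 : 0 ≤ D ^ 2 := sq_nonneg D
  have hrε : ε ≤ r := by
    by_contra h
    push Not at h
    nlinarith only [hr, hε, h]
  obtain ⟨c, hc⟩ : ∃ c : ℂ, c = q - ((r - ε / 2 : ℝ) : ℂ) * u := ⟨_, rfl⟩
  have hKc : (K : Set ℂ) ⊆ closedBall c r := by
    intro z hz
    rw [mem_closedBall, dist_eq_norm]
    refine le_sq ?_ (by linarith)
    have e1 : z - c = (z - q) - (-(((r - ε / 2 : ℝ) : ℂ) * u)) := by rw [hc]; ring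
    have e2 : ip (-(((r - ε / 2 : ℝ) : ℂ) * u)) (z - q) = -((r - ε / 2) * ip u (z - q)) := by
      simp only [ip, Complex.neg_re, Complex.neg_im, Complex.re_ofReal_mul, Complex.im_ofReal_mul]
      ring
    have e3 : ‖-(((r - ε / 2 : ℝ) : ℂ) * u)‖ = r - ε / 2 := by
      rw [norm_neg, norm_mul, hu1, mul_one, Complex.norm_real, Real.norm_of_nonneg (by linarith)]
    rw [e1, norm_sub_sq, e2, e3]
    have h4 := hKu z hz
    have h5 : ‖z - q‖ ^ 2 ≤ D ^ 2 := by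
      have := hD z hz q hq
      gcongr
    have h6 : (r - ε / 2) * ip u (z - q) ≤ 0 :=
      mul_nonpos_of_nonneg_of_nonpos (by linarith) h4
    nlinarith only [hr, h5, h6]
  have h7 := hp c hKc
  rw [mem_closedBall, dist_eq_norm] at h7
  have e4 : p - c = ((‖p - q‖ + (r - ε / 2) : ℝ) : ℂ) * u := by
    have : p - c = (p - q) + ((r - ε / 2 : ℝ) : ℂ) * u := by rw [hc]; ring
    rw [this, hpu, ← add_mul, norm_mul, hu1, mul_one, Complex.norm_real,
      Real.norm_of_nonneg hpq.le]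
    push_cast
    ring
  rw [e4, norm_mul, hu1, mul_one, Complex.norm_real, Real.norm_of_nonneg (by linarith)] at h7
  linarith

/-- density criterion -/
theorem dense_CB {S : Set CB} (h : ∀ K : CB, ∀ ε : ℝ, 0 < ε → ∃ K' : ConvexBody ℂ,
    (K.1 : Set ℂ) ⊆ K' ∧ (∀ p ∈ (K' : Set ℂ), ∃ q ∈ (K.1 : Set ℂ), dist p q ≤ ε) ∧
      ∀ hK' : (interior (K' : Set ℂ)).Nonempty, (⟨K', hK'⟩ : CB) ∈ S) : Dense S := by
  rw [Metric.dense_iff]
  intro K ε hε
  obtain ⟨K', h1, h2, h3⟩ := h K (ε / 2) (by positivity)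
  have hne : (interior (K' : Set ℂ)).Nonempty := K.2.mono (interior_mono h1)
  refine ⟨⟨K', hne⟩, ?_, h3 hne⟩
  rw [mem_ball]
  have h4 : hausdorffDist (K' : Set ℂ) (K.1 : Set ℂ) ≤ ε / 2 :=
    hausdorffDist_le_of_mem_dist (by positivity) h2 fun x hx => ⟨x, h1 hx, by
      rw [dist_self]; positivity⟩
  calc dist (⟨K', hne⟩ : CB) K = hausdorffDist (K' : Set ℂ) (K.1 : Set ℂ) := rfl
    _ ≤ ε / 2 := h4
    _ < ε := by linarith

/-- KSC -/
theorem ksc : KscStatement := by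
  constructor
  · have : {K : CB | StrictConvex ℝ (K.1 : Set ℂ)} = ⋂ n : ℕ, {K : CB | ∃ p ∈ Csc n,
        ‖p.1‖ = 1 ∧ ‖p.2.1‖ = 1 ∧ p.2.2.1 ∈ (K.1 : Set ℂ) ∧
        p.2.2.2 ∈ (K.1 : Set ℂ) ∧ (∀ z ∈ (K.1 : Set ℂ), ip p.1 z ≤ ip p.1 p.2.2.1) ∧
        ∀ z ∈ (K.1 : Set ℂ), ip p.2.1 z ≤ ip p.2.1 p.2.2.2}ᶜ := by
      ext K
      rw [Set.mem_iInter]
      exact sc_iff K
    rw [this]
    exact IsGδ.iInter_of_isOpen fun n => (closed_touch _ (Csc_closed n)).isOpen_compl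
  · refine dense_CB fun K ε hε => ?_
    obtain ⟨R, hR⟩ := K.1.isBounded.subset_closedBall (0 : ℂ)
    have hD : ∀ x ∈ K.1, ∀ y ∈ K.1, ‖x - y‖ ≤ 2 * |R| := by
      intro x hx y hy
      have h1 := hR hx
      have h2 := hR hy
      rw [mem_closedBall, dist_zero_right] at h1 h2
      have := norm_sub_le x y
      have := le_abs_self R
      linarith
    obtain ⟨r, hr⟩ : ∃ r : ℝ, r = ((2 * |R|) ^ 2 + ε ^ 2) / ε + |R| := ⟨_, rfl⟩
    have hr1 : (2 * |R|) ^ 2 + ε ^ 2 ≤ r * ε := by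
      rw [hr, add_mul, div_mul_cancel₀ _ hε.ne']
      have := mul_nonneg (abs_nonneg R) hε.le
      linarith
    have hr2 : |R| ≤ r := by
      rw [hr]
      have : 0 ≤ ((2 * |R|) ^ 2 + ε ^ 2) / ε := by positivity
      linarith
    have hr0 : 0 < r := by
      rw [hr]
      positivity
    have hsub : (K.1 : Set ℂ) ⊆ closedBall (0 : ℂ) r := hR.trans
      (closedBall_subset_closedBall (le_trans (le_abs_self R) hr2))
    refine ⟨⟨hl (K.1 : Set ℂ) r, hl_convex _ _, ?_, ?_⟩, sub_hl _ _,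
      fun p hp => hl_near K.1 hε hD hr1 hp, fun _ => hl_strict hr0 ⟨0, hsub⟩⟩
    · refine (isCompact_closedBall (0 : ℂ) r).of_isClosed_subset (hl_closed _ _) fun x hx => ?_
      exact hx 0 hsub
    · exact K.1.nonempty.mono (sub_hl _ _)

/-! ### Smoothness -/

/-- touching data which contradict smoothness -/
def Cc1 (n : ℕ) : Set (ℂ × ℂ × ℂ × ℂ) := {p | p.2.2.1 = p.2.2.2 ∧ 1 / ((n : ℝ) + 1) ≤ ‖p.1 - p.2.1‖}

theorem Cc1_closed (n : ℕ) : IsClosed (Cc1 n) := by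
  have h1 : IsClosed {p : ℂ × ℂ × ℂ × ℂ | p.2.2.1 = p.2.2.2} :=
    isClosed_eq (by fun_prop) (by fun_prop)
  have h2 : IsClosed {p : ℂ × ℂ × ℂ × ℂ | 1 / ((n : ℝ) + 1) ≤ ‖p.1 - p.2.1‖} :=
    isClosed_le (by fun_prop) (by fun_prop)
  exact h1.inter h2

theorem c1_iff (K : CB) : Smooth1 K.1 ↔ ∀ n : ℕ, K ∉ {K : CB | ∃ p ∈ Cc1 n,
    ‖p.1‖ = 1 ∧ ‖p.2.1‖ = 1 ∧ p.2.2.1 ∈ (K.1 : Set ℂ) ∧
      p.2.2.2 ∈ (K.1 : Set ℂ) ∧ (∀ z ∈ (K.1 : Set ℂ), ip p.1 z ≤ ip p.1 p.2.2.1) ∧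
      ∀ z ∈ (K.1 : Set ℂ), ip p.2.1 z ≤ ip p.2.1 p.2.2.2} := by
  constructor
  · rintro hK n ⟨⟨u, v, x, y⟩, ⟨hxy, huv⟩, h1, h2, hx, hy, hux, hvy⟩
    simp only at huv hxy h1 h2 hx hy hux hvy
    subst hxy
    have := hK x hx u v h1 h2 hux hvy
    rw [this, sub_self, norm_zero] at huv
    have h0 : 0 < 1 / ((n : ℝ) + 1) := by positivity
    linarith
  · intro h x hx u v hu hv hux hvx
    by_contra hne
    obtain ⟨n, hn⟩ := exists_nat_one_div_lt (norm_pos_iff.2 (sub_ne_zero.2 hne))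
    exact h n ⟨(u, v, x, x), ⟨rfl, hn.le⟩, hu, hv, hx, hx, hux, hvx⟩

/-- KC1 -/
theorem kc1 : Kc1Statement := by
  constructor
  · have : {K : CB | Smooth1 K.1} = ⋂ n : ℕ, {K : CB | ∃ p ∈ Cc1 n,
        ‖p.1‖ = 1 ∧ ‖p.2.1‖ = 1 ∧ p.2.2.1 ∈ (K.1 : Set ℂ) ∧
        p.2.2.2 ∈ (K.1 : Set ℂ) ∧ (∀ z ∈ (K.1 : Set ℂ), ip p.1 z ≤ ip p.1 p.2.2.1) ∧
        ∀ z ∈ (K.1 : Set ℂ), ip p.2.1 z ≤ ip p.2.1 p.2.2.2}ᶜ := by
      ext K
      rw [Set.mem_iInter]
      exact c1_iff K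
    rw [this]
    exact IsGδ.iInter_of_isOpen fun n => (closed_touch _ (Cc1_closed n)).isOpen_compl
  · refine dense_CB fun K ε hε => ?_
    have hmem : ∀ p, p ∈ cthickening ε (K.1 : Set ℂ) ↔ ∃ q ∈ (K.1 : Set ℂ), dist p q ≤ ε := by
      intro p
      rw [K.1.isCompact.cthickening_eq_biUnion_closedBall hε.le]
      simp
    refine ⟨⟨cthickening ε (K.1 : Set ℂ), K.1.convex.cthickening ε, K.1.isCompact.cthickening,
      K.1.nonempty.mono (self_subset_cthickening _)⟩, self_subset_cthickening _,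
      fun p hp => (hmem p).1 hp, fun _ x hx u v hu hv hux hvx => ?_⟩
    obtain ⟨q, hq, hqx⟩ := (hmem x).1 hx
    have key : ∀ w : ℂ, ‖w‖ = 1 → (∀ y ∈ cthickening ε (K.1 : Set ℂ), ip w y ≤ ip w x) →
        x = q + (ε : ℂ) * w := by
      intro w hw hmax
      have h1 : q + (ε : ℂ) * w ∈ cthickening ε (K.1 : Set ℂ) := by
        rw [hmem]
        refine ⟨q, hq, ?_⟩
        rw [dist_eq_norm, add_sub_cancel_left, norm_mul, hw, mul_one, Complex.norm_real,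
          Real.norm_of_nonneg hε.le]
      have h2 := hmax _ h1
      rw [ip_add, ip_rmul, ip_self, hw] at h2
      have h3 : ‖(x - q) - (ε : ℂ) * w‖ ^ 2 ≤ 0 := by
        rw [norm_sub_sq, norm_mul, hw, mul_one, Complex.norm_real, Real.norm_of_nonneg hε.le]
        have e1 : ip ((ε : ℂ) * w) (x - q) = ε * (ip w x - ip w q) := by
          rw [← ip_sub]
          simp only [ip, Complex.re_ofReal_mul, Complex.im_ofReal_mul]
          ring
        rw [e1]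
        rw [dist_eq_norm] at hqx
        have h4 : ‖x - q‖ ^ 2 ≤ ε ^ 2 := by gcongr
        nlinarith only [h4, hε, h2]
      have h4 : ‖(x - q) - (ε : ℂ) * w‖ = 0 := by
        have := sq_nonneg ‖(x - q) - (ε : ℂ) * w‖
        have h5 : ‖(x - q) - (ε : ℂ) * w‖ ^ 2 = 0 := le_antisymm h3 this
        exact pow_eq_zero_iff (two_ne_zero) |>.1 h5
      rw [norm_eq_zero, sub_eq_zero] at h4
      rw [← h4]
      ring
    have e1 := key u hu hux
    have e2 := key v hv hvx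
    rw [e1] at e2
    have e3 : (ε : ℂ) * u = (ε : ℂ) * v := add_left_cancel e2
    exact mul_left_cancel₀ (by exact_mod_cast hε.ne') e3

end Pool.Agent.GB.H51
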