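import Pool.Agent.Helper62_GB.Stmt2

/-!
GB, module STAB: a body which is determined by its spectrum is stably determined.
-/

set_option autoImplicit false

namespace Pool.Agent.GB.H51

open MeasureTheory Complex Filter Topology Metric Pool.Agent.H16Iso Pool.Agent.H62T
open Pool.Agent.H16F Pool.Agent.GB

/-- STAB -/
theorem stab (hBnds : BndsStatement) (hBla : BlaStatement) (hE : EigcStatement)
    (hM : MvbStatement) : StabStatement := by
  obtain ⟨m1, m2, m3, -⟩ := hM
  intro K hdet ε hε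
  by_contra hcon
  push Not at hcon
  have h1 : ∀ n : ℕ, ∃ K' : CB, (∀ k ≤ n, |dirEig (ins K'.1) k - dirEig (ins K.1) k|
      < 1 / ((n : ℝ) + 1)) ∧ ∀ g : ℂ ≃ᵢ ℂ, ε ≤ dist (mv g K.1) K'.1 :=
    fun n => hcon n (1 / ((n : ℝ) + 1)) (by positivity)
  choose K' hK' hfar using h1
  obtain ⟨R, v0, N, hv0, hb⟩ := hBnds K
  have h2 : ∀ n, (∃ c, ((K' (N + n)).1 : Set ℂ) ⊆ closedBall c R) ∧
      v0 ≤ (volume ((K' (N + n)).1 : Set ℂ)).toReal := by
    intro n
    refine hb _ fun k hk => ?_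
    have h3 := hK' (N + n) k (by omega)
    have h4 : 1 / (((N + n : ℕ) : ℝ) + 1) ≤ 1 := by
      rw [div_le_one (by positivity)]
      have : (0 : ℝ) ≤ ((N + n : ℕ) : ℝ) := Nat.cast_nonneg _
      linarith
    exact (h3.trans_le h4).le
  choose hc hv using h2
  choose c hc using hc
  -- translations
  obtain ⟨τ, hτ⟩ : ∃ τ : ℕ → (ℂ ≃ᵢ ℂ), ∀ j z, τ j z = z + (-c j) :=
    ⟨fun j => IsometryEquiv.addRight (-c j), fun j z => rfl⟩
  obtain ⟨M, hMd⟩ : ∃ M : ℕ → ConvexBody ℂ, ∀ j, M j = mv (τ j) (K' (N + j)).1 := ⟨_, fun j => rfl⟩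
  have hM1 : ∀ j, (M j : Set ℂ) ⊆ closedBall 0 R := by
    intro j
    rw [hMd]
    rintro _ ⟨z, hz, rfl⟩
    have h3 := hc j hz
    rw [mem_closedBall, dist_eq_norm] at h3
    rw [mem_closedBall, dist_zero_right, hτ, ← sub_eq_add_neg]
    exact h3
  have hM2 : ∀ j, v0 ≤ (volume (M j : Set ℂ)).toReal := by
    intro j
    have h3 : volume (M j : Set ℂ) = volume ((K' (N + j)).1 : Set ℂ) := by
      rw [hMd]
      show volume (τ j '' ((K' (N + j)).1 : Set ℂ)) = _
      have h4 : (τ j '' ((K' (N + j)).1 : Set ℂ)) = (fun z => z + (-c j)) '' ((K' (N + j)).1 : Set ℂ) :=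
        Set.image_congr fun z _ => hτ j z
      rw [h4, Set.image_add_right, measure_preimage_add_right]
    rw [h3]
    exact hv j
  obtain ⟨L, φ, hφ, hlim, hL⟩ := hBla R v0 hv0 M hM1 hM2
  have hMne : ∀ j, (interior (M j : Set ℂ)).Nonempty := by
    intro j
    have : (ins (M j)).Nonempty := by
      rw [hMd, (m2 (τ j) _).1]
      exact (K' (N + j)).2.image _
    exact this
  have tCB : Tendsto (fun j => (⟨M (φ j), hMne (φ j)⟩ : CB)) atTop (𝓝 (⟨L, hL⟩ : CB)) :=
    tendsto_subtype_rng.2 hlim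
  have tN : Tendsto (fun j => N + φ j) atTop atTop :=
    tendsto_atTop_mono (fun j => Nat.le_add_left _ _) hφ.tendsto_atTop
  -- the spectrum of the limit
  have hspec : ∀ k, dirEig (ins K.1) k = dirEig (ins L) k := by
    intro k
    have t1 := ((hE k).tendsto (⟨L, hL⟩ : CB)).comp tCB
    have t1' : Tendsto (fun j => dirEig (ins (K' (N + φ j)).1) k) atTop (𝓝 (dirEig (ins L) k)) := by
      refine t1.congr fun j => ?_
      show dirEig (ins (M (φ j))) k = _
      rw [hMd]
      exact (m2 (τ (φ j)) _).2.2 k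
    have t2 : Tendsto (fun j => dirEig (ins (K' (N + φ j)).1) k) atTop
        (𝓝 (dirEig (ins K.1) k)) := by
      have h5 : Tendsto (fun n : ℕ => 1 / ((n : ℝ) + 1)) atTop (𝓝 0) :=
        tendsto_one_div_add_atTop_nhds_zero_nat
      have h6 := h5.comp tN
      refine tendsto_iff_norm_sub_tendsto_zero.2 (squeeze_zero' (Eventually.of_forall fun j =>
        norm_nonneg _) ?_ h6)
      filter_upwards [tN.eventually (eventually_ge_atTop k)] with j hj
      exact (hK' (N + φ j) k hj).le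
    exact tendsto_nhds_unique t2 t1'
  obtain ⟨g, hg⟩ := hdet L hL hspec
  have hgL : mv g K.1 = L := ConvexBody.ext hg
  -- contradiction
  have t3 : Tendsto (fun j => dist (M (φ j)) L) atTop (𝓝 0) := tendsto_iff_dist_tendsto_zero.1 hlim
  obtain ⟨j, hj⟩ := (t3.eventually (gt_mem_nhds hε)).exists
  have h7 := hfar (N + φ j) (g.trans (τ (φ j)).symm)
  rw [← m1 (τ (φ j)), m3, ← hMd] at h7
  have h8 : (g.trans (τ (φ j)).symm).trans (τ (φ j)) = g := by
    ext z
    simp
  rw [h8, hgL, dist_comm] at h7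
  linarith

end Pool.Agent.GB.H51
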